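import Mathlib
import Pool.Agent.Helper29.OnePlane.Defs
import Pool.Agent.Helper29.OnePlane.Drawing
import Pool.Agent.Helper29.OnePlane.Count
import Pool.Agent.Helper29.OnePlane.Crossings
import Pool.Agent.Helper29.OnePlane.Conn

set_option autoImplicit false

namespace Pool.Agent.Results.MP_c4df14_co.ExtremalFiveConnected

open Pool.Agent.Helper29.OnePlane

/-- **Answer to Q1 (yes).** There is a maximal 1-plane graph `G` of order `n` (namely `n = 27`)
with vertex connectivity exactly 5, with `cr(G) = 3/5 (n - 2)` crossing points and with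
`|E(G)| = 18/5 (n - 2)` edges. Moreover all its edges are straight-line segments. -/
theorem result : ∃ (n : ℕ) (G : SimpleGraph (Fin n)) (pos : Fin n → ℝ × ℝ)
    (arc : Sym2 (Fin n) → Set (ℝ × ℝ)),
    0 < n ∧ IsMaximalOnePlane G pos arc ∧ HasVertexConnectivity G 5 ∧
    ((crossingPoints G pos arc).ncard : ℚ) = 3 / 5 * ((n : ℚ) - 2) ∧
    (G.edgeSet.ncard : ℚ) = 18 / 5 * ((n : ℚ) - 2) ∧
    ∀ u v, G.Adj u v → arc s(u, v) = segment ℝ (pos u) (pos v) := by
  refine ⟨27, G27, pos27, arc27, by norm_num, isMaximal27, connectivity27, ?_, ?_, ?_⟩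
  · rw [crossing_count]; norm_num
  · rw [edge_count]; norm_num
  · intro u v _; rfl

end Pool.Agent.Results.MP_c4df14_co.ExtremalFiveConnected
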